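import Pool.Agent.Helper61.QT.GoalsH

/-!
# Project QT (MP_0ebdb3_gt), packet QT-E2: the identifications of the polar box are the only ones
-/

set_option autoImplicit false

open Set ComplexConjugate

namespace Pool.Agent.Helper49.QT.E2

open Pool.Agent.Helper61 Pool.Agent.Helper61.QT
open Pool.Agent.Helper61.QS (R4)
open Pool.Agent.Helper61.QM (W2 pol2 act2)

theorem exp_int {a b : ℝ} (h : Complex.exp (a * Complex.I) = Complex.exp (b * Complex.I)) :
    ∃ j : ℤ, a = b + j * (2 * Real.pi) := by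
  obtain ⟨n, hn⟩ := Complex.exp_eq_exp_iff_exists_int.mp h
  refine ⟨n, ?_⟩
  have h1 : ((a : ℂ)) * Complex.I = (((b + n * (2 * Real.pi) : ℝ)) : ℂ) * Complex.I := by
    rw [hn]
    push_cast
    ring
  have h2 := mul_right_cancel₀ Complex.I_ne_zero h1
  exact_mod_cast h2

theorem per_int {Y : Type} (g : ℝ → Y) (h : ∀ x, g (x + 2 * Real.pi) = g x) (j : ℤ) :
    ∀ x, g (x + j * (2 * Real.pi)) = g x := by
  induction j using Int.induction_on with
  | zero =>
    intro x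
    norm_num
  | succ i ih =>
    intro x
    have h1 : x + (((i : ℤ) + 1 : ℤ) : ℝ) * (2 * Real.pi) =
        (x + ((i : ℤ) : ℝ) * (2 * Real.pi)) + 2 * Real.pi := by
      push_cast
      ring
    rw [h1, h, ih]
  | pred i ih =>
    intro x
    have h1 : (x + ((-(i : ℤ) - 1 : ℤ) : ℝ) * (2 * Real.pi)) + 2 * Real.pi =
        x + ((-(i : ℤ) : ℤ) : ℝ) * (2 * Real.pi) := by
      push_cast
      ring
    rw [← h, h1, ih]

theorem sin_zero {t : ℝ} (h0 : 0 ≤ t) (h1 : t ≤ Real.pi / 2) (h : Real.sin t = 0) : t = 0 :=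
  (Real.sin_eq_zero_iff_of_lt_of_lt (by linarith [Real.pi_pos]) (by linarith [Real.pi_pos])).mp h

theorem cos_zero {t : ℝ} (h0 : 0 ≤ t) (h1 : t ≤ Real.pi / 2) (h : Real.cos t = 0) :
    t = Real.pi / 2 := by
  have hpi := Real.pi_pos
  exact Real.injOn_cos ⟨h0, by linarith⟩ ⟨by linarith, by linarith⟩
    (by rw [h, Real.cos_pi_div_two])

/-- moving `β` -/
theorem moveβ {a b : ℤ} {Y : Type} {f : R4 → Y} (hf : Compat2 a b f) {r s : ℝ} (hr0 : 0 ≤ r)
    (hr1 : r ≤ Real.pi / 2) (h0 : 0 ≤ s) (h1 : s ≤ Real.pi / 2) (α β β' : ℝ)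
    (h : Complex.exp (β' * Complex.I) * (Real.sin s : ℂ) =
      Complex.exp (β * Complex.I) * (Real.sin s : ℂ)) :
    f (r, s, α, β') = f (r, s, α, β) := by
  by_cases hs : Real.sin s = 0
  · have h2 := sin_zero h0 h1 hs
    subst h2
    rw [hf.s0 r α β' hr0 hr1, hf.s0 r α β hr0 hr1]
  · have h2 : ((Real.sin s : ℝ) : ℂ) ≠ 0 := by exact_mod_cast hs
    obtain ⟨j, rfl⟩ := exp_int (mul_right_cancel₀ h2 h)
    exact per_int (fun b => f (r, s, α, b)) (fun b => hf.perβ r s α b ⟨hr0, hr1, h0, h1⟩) j β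

/-- moving `α` -/
theorem moveα {a b : ℤ} {Y : Type} {f : R4 → Y} (hf : Compat2 a b f) {r s : ℝ} (hr0 : 0 ≤ r)
    (hr1 : r ≤ Real.pi / 2) (h0 : 0 ≤ s) (h1 : s ≤ Real.pi / 2) (α α' β : ℝ)
    (h : Complex.exp (α' * Complex.I) * (Real.sin r : ℂ) =
      Complex.exp (α * Complex.I) * (Real.sin r : ℂ)) :
    f (r, s, α', β) = f (r, s, α, β) := by
  by_cases hs : Real.sin r = 0
  · have h2 := sin_zero hr0 hr1 hs
    subst h2
    rw [hf.r0 s α' β h0 h1, hf.r0 s α β h0 h1]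
  · have h2 : ((Real.sin r : ℝ) : ℂ) ≠ 0 := by exact_mod_cast hs
    obtain ⟨j, rfl⟩ := exp_int (mul_right_cancel₀ h2 h)
    exact per_int (fun c => f (r, s, c, β)) (fun c => hf.perα r s c β ⟨hr0, hr1, h0, h1⟩) j α

/-- the moduli agree -/
theorem mod_eq {z : ℂ} (hz : ‖z‖ = 1) {t t' : ℝ} (h0 : 0 ≤ t) (h1 : t ≤ Real.pi / 2)
    (h0' : 0 ≤ t') (h1' : t' ≤ Real.pi / 2)
    (h : ((Real.cos t' : ℝ) : ℂ) = z * ((Real.cos t : ℝ) : ℂ)) : t' = t := by
  have hpi := Real.pi_pos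
  have hc : 0 ≤ Real.cos t := Real.cos_nonneg_of_neg_pi_div_two_le_of_le (by linarith) h1
  have hc' : 0 ≤ Real.cos t' := Real.cos_nonneg_of_neg_pi_div_two_le_of_le (by linarith) h1'
  have h2 := congrArg norm h
  rw [norm_mul, hz, one_mul, Complex.norm_real, Complex.norm_real, Real.norm_of_nonneg hc,
    Real.norm_of_nonneg hc'] at h2
  exact Real.injOn_cos ⟨h0', by linarith⟩ ⟨h0, by linarith⟩ h2

theorem one_of {z : ℂ} {t : ℝ} (ht : Real.cos t ≠ 0)
    (h : ((Real.cos t : ℝ) : ℂ) = z * ((Real.cos t : ℝ) : ℂ)) : z = 1 := by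
  have h1 : ((Real.cos t : ℝ) : ℂ) ≠ 0 := by exact_mod_cast ht
  have h2 : (1 : ℂ) * ((Real.cos t : ℝ) : ℂ) = z * ((Real.cos t : ℝ) : ℂ) := by
    rw [one_mul]
    exact h
  exact (mul_right_cancel₀ h1 h2).symm

/-- the change of the angle when a factor is moved to the other circle: `z = e^{i(x'-x)}`,
`z^c w = 1`, `e^{iy'} t = w e^{iy} t` give `e^{i(y'+cx')} t = e^{i(y+cx)} t` -/
theorem shift {z w t : ℂ} {x x' y y' : ℝ} (c : ℤ)
    (hz : Complex.exp (x' * Complex.I) = z * Complex.exp (x * Complex.I)) (hw : z ^ c * w = 1)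
    (h : Complex.exp (y' * Complex.I) * t = w * (Complex.exp (y * Complex.I) * t)) :
    Complex.exp (((y' + c * x' : ℝ) : ℂ) * Complex.I) * t =
      Complex.exp (((y + c * x : ℝ) : ℂ) * Complex.I) * t := by
  have e8 : z ^ c * Complex.exp (((c * x : ℝ) : ℂ) * Complex.I) =
      Complex.exp (((c * x' : ℝ) : ℂ) * Complex.I) := by
    have e1 : Complex.exp (((c * x : ℝ) : ℂ) * Complex.I) = Complex.exp (x * Complex.I) ^ c := by
      rw [← Complex.exp_int_mul]
      congr 1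
      push_cast
      ring
    have e2 : Complex.exp (((c * x' : ℝ) : ℂ) * Complex.I) = Complex.exp (x' * Complex.I) ^ c := by
      rw [← Complex.exp_int_mul]
      congr 1
      push_cast
      ring
    rw [e1, e2, hz, mul_zpow]
  have e9 : Complex.exp (((y' + c * x' : ℝ) : ℂ) * Complex.I) =
      Complex.exp (((c * x' : ℝ) : ℂ) * Complex.I) * Complex.exp (y' * Complex.I) := by
    rw [← Complex.exp_add]
    congr 1
    push_cast
    ring
  have e10 : Complex.exp (((y + c * x : ℝ) : ℂ) * Complex.I) =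
      Complex.exp (((c * x : ℝ) : ℂ) * Complex.I) * Complex.exp (y * Complex.I) := by
    rw [← Complex.exp_add]
    congr 1
    push_cast
    ring
  rw [e9, mul_assoc, h, ← e8, e10]
  calc z ^ c * Complex.exp (((c * x : ℝ) : ℂ) * Complex.I) *
        (w * (Complex.exp (y * Complex.I) * t))
      = (z ^ c * w) * (Complex.exp (((c * x : ℝ) : ℂ) * Complex.I) *
          Complex.exp (y * Complex.I) * t) := by ring
    _ = _ := by rw [hw, one_mul]

/-- at the corner `r = s = π/2` the function is constant -/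
theorem corner {a b : ℤ} (hab : b = 0 ∨ (a = 1 ∧ b = 2)) {Y : Type} {f : R4 → Y}
    (hf : Compat2 a b f) (α β : ℝ) :
    f (Real.pi / 2, Real.pi / 2, α, β) = f (Real.pi / 2, Real.pi / 2, 0, 0) := by
  have hpi := Real.pi_pos
  have h0 : (0 : ℝ) ≤ Real.pi / 2 := by linarith
  have h1 : ∀ α β : ℝ, f (Real.pi / 2, Real.pi / 2, α, β) =
      f (Real.pi / 2, Real.pi / 2, b * (β + a * α), 0) := by
    intro α β
    rw [hf.r1 _ α β h0 le_rfl, hf.s1 _ 0 _ h0 le_rfl, zero_add]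
  rcases hab with rfl | ⟨rfl, rfl⟩
  · rw [h1]
    norm_num
  · have h2 : ∀ x : ℝ, f (Real.pi / 2, Real.pi / 2, x, 0) =
        f (Real.pi / 2, Real.pi / 2, 0, 0) := by
      intro x
      have h3 := h1 (-x) x
      rw [hf.s1 _ (-x) x h0 le_rfl] at h3
      norm_num at h3
      have h4 : -x + 2 * x = x := by ring
      rw [h4] at h3
      exact h3
    rw [h1, h2]

/-- **A-E2** -/
theorem goalE2 : G_E2 := by
  rintro a b hab Y f hf ⟨r, s, α, β⟩ ⟨hr0, hr1, h0, h1⟩ ⟨r', s', α', β'⟩ ⟨hr0', hr1', h0', h1'⟩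
    ζ ω hζ hω h
  simp only at hr0 hr1 h0 h1 hr0' hr1' h0' h1'
  have hpi := Real.pi_pos
  have e1 : ((Real.cos r' : ℝ) : ℂ) = ζ * ω ^ b * ((Real.cos r : ℝ) : ℂ) :=
    congrArg (fun P : W2 => P.1.1) h
  have e2 : Complex.exp (α' * Complex.I) * ((Real.sin r' : ℝ) : ℂ) =
      ζ * (Complex.exp (α * Complex.I) * ((Real.sin r : ℝ) : ℂ)) := congrArg (fun P : W2 => P.1.2) h
  have e3 : ((Real.cos s' : ℝ) : ℂ) = ζ ^ a * ω * ((Real.cos s : ℝ) : ℂ) :=
    congrArg (fun P : W2 => P.2.1) h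
  have e4 : Complex.exp (β' * Complex.I) * ((Real.sin s' : ℝ) : ℂ) =
      ω * (Complex.exp (β * Complex.I) * ((Real.sin s : ℝ) : ℂ)) := congrArg (fun P : W2 => P.2.2) h
  have hr : r' = r := mod_eq (by rw [norm_mul, norm_zpow, hζ, hω, one_zpow, one_mul])
    hr0 hr1 hr0' hr1' e1
  have hs : s' = s := mod_eq (by rw [norm_mul, norm_zpow, hζ, hω, one_zpow, one_mul])
    h0 h1 h0' h1' e3
  subst hr
  subst hs
  by_cases hcr : Real.cos r' = 0
  · have hr2 := cos_zero hr0' hr1' hcr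
    subst hr2
    by_cases hcs : Real.cos s' = 0
    · have hs2 := cos_zero h0' h1' hcs
      subst hs2
      rw [corner hab hf α' β', corner hab hf α β]
    · have h5 := one_of hcs e3
      rw [hf.r1 s' α' β' h0 h1, hf.r1 s' α β h0 h1]
      apply moveβ hf hr0 hr1 h0 h1
      rw [Real.sin_pi_div_two, Complex.ofReal_one, mul_one, mul_one] at e2
      exact shift a e2 h5 e4
  · have h6 := one_of hcr e1
    by_cases hcs : Real.cos s' = 0
    · have hs2 := cos_zero h0' h1' hcs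
      subst hs2
      rw [hf.s1 r' α' β' hr0 hr1, hf.s1 r' α β hr0 hr1]
      apply moveα hf hr0 hr1 h0 h1
      rw [Real.sin_pi_div_two, Complex.ofReal_one, mul_one, mul_one] at e4
      exact shift b e4 (by rw [mul_comm]; exact h6) e2
    · have h5 := one_of hcs e3
      have h7 : ζ = 1 ∧ ω = 1 := by
        rcases hab with rfl | ⟨rfl, rfl⟩
        · rw [zpow_zero, mul_one] at h6
          rw [h6, one_zpow, one_mul] at h5
          exact ⟨h6, h5⟩
        · rw [zpow_one] at h5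
          have h8 : ζ * ω ^ (2 : ℤ) = (ζ * ω) * ω := by
            rw [zpow_two]
            ring
          rw [h8, h5, one_mul] at h6
          rw [h6, mul_one] at h5
          exact ⟨h5, h6⟩
      rw [h7.1, one_mul] at e2
      rw [h7.2, one_mul] at e4
      rw [moveα hf hr0 hr1 h0 h1 α α' β' e2, moveβ hf hr0 hr1 h0 h1 α β β' e4]

end Pool.Agent.Helper49.QT.E2
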