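import Pool.Agent.Helper61.QT.GoalsG

/-!
# Project QT (MP_0ebdb3_gt): packet QT-GKG
-/

set_option autoImplicit false

open Set

namespace Pool.Agent.Helper49.QT

open Pool.Agent.Helper61 Pool.Agent.Helper61.QG Pool.Agent.Helper61.QT
open Pool.Agent.Helper61.QS (V En rk R4 IsCurv SecNN Gam dd G_G2)
open Pool.Agent.Helper61.QM (Model)

theorem cda_clm {D E F : Type} [NormedAddCommGroup D] [NormedSpace ℝ D] [NormedAddCommGroup E]
    [NormedSpace ℝ E] [NormedAddCommGroup F] [NormedSpace ℝ F] [FiniteDimensional ℝ E]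
    {r : WithTop ℕ∞} {f : D → E →L[ℝ] F} {x : D} (h : ∀ y, ContDiffAt ℝ r (fun z => f z y) x) :
    ContDiffAt ℝ r f x := by
  let d := Module.finrank ℝ E
  have hd : d = Module.finrank ℝ (Fin d → ℝ) := (Module.finrank_fin_fun ℝ).symm
  let e₁ := ContinuousLinearEquiv.ofFinrankEq hd
  let e₂ := (e₁.arrowCongr (1 : F ≃L[ℝ] F)).trans (ContinuousLinearEquiv.piRing (Fin d))
  rw [← Function.id_comp f, ← e₂.symm_comp_self]
  exact e₂.symm.contDiff.contDiffAt.comp x (contDiffAt_pi.mpr fun i => h _)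

section

variable {WW : Type} [NormedAddCommGroup WW] [NormedSpace ℝ WW] {M : Model WW}
  {p : R4 → WW} {Reg : Set R4} {k n : ℕ} {e : WW → En n} {B : WW → WW →L[ℝ] En n} {U : Set R4}
  {s : R4 → (V k →L[ℝ] V n)}

theorem cd_s (hc : IsChart M k e U p s) {x : R4} (hx : x ∈ U) : ContDiffAt ℝ 3 s x :=
  hc.smooth_s.contDiffAt (hc.isOpen.mem_nhds hx)

theorem e_s (hc : IsChart M k e U p s) {x : R4} (hx : x ∈ U) (w : V k) :
    e (p x) (s x w) = s x w := (hc.range x hx _).mpr ⟨w, rfl⟩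

theorem e_N (hB : IsBundle M k e B) (hc : IsChart M k e U p s) (hPL : IsPolar M p Reg) {x : R4}
    (hx : x ∈ U) (w : V k) (a : R4) :
    e (p x) ((fderiv ℝ s x a) w - (B (p x) (fderiv ℝ p x a)) (s x w)) =
      (fderiv ℝ s x a) w - (B (p x) (fderiv ℝ p x a)) (s x w) := by
  have h1 : HasFDerivAt s (fderiv ℝ s x) x :=
    ((cd_s hc hx).differentiableAt (by norm_num)).hasFDerivAt
  have hp : HasFDerivAt p (fderiv ℝ p x) x :=
    (hPL.smooth.differentiable (by norm_num) x).hasFDerivAt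
  have he : HasFDerivAt e (fderiv ℝ e (p x)) (p x) :=
    (hB.smooth_e.differentiable (by norm_num) (p x)).hasFDerivAt
  have h2 : HasFDerivAt (fun y => e (p y)) ((fderiv ℝ e (p x)).comp (fderiv ℝ p x)) x :=
    he.comp x hp
  have h3 := h1.clm_apply (hasFDerivAt_const w x)
  have h4 := h2.clm_apply h3
  have h5 : (fun y => e (p y) (s y w)) =ᶠ[nhds x] fun y => s y w := by
    filter_upwards [hc.isOpen.mem_nhds hx] with y hy
    exact e_s hc hy w
  have h6 := (h4.congr_of_eventuallyEq h5.symm).unique h3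
  have h7 := congrArg (fun L : R4 →L[ℝ] V n => L a) h6
  have h8 := hB.par (p x) (hPL.mem x) _ (hPL.tan x a)
  simp only [add_apply, ContinuousLinearMap.comp_apply,
    ContinuousLinearMap.flip_apply, zero_apply, map_zero, zero_add,
    h8, sub_apply, mul_apply_eq_comp] at h7
  rw [e_s hc hx w] at h7
  rw [map_sub, ← sub_eq_zero, ← sub_eq_zero.mpr h7]
  abel

theorem Nf_apply (B : WW → WW →L[ℝ] En n) (p : R4 → WW) (s : R4 → (V k →L[ℝ] V n))
    (x : R4) (w : V k) (a : R4) (b : V k) :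
    Nf B p s (x, w) (a, b) =
      (fderiv ℝ s x a) w + s x b - (B (p x) (fderiv ℝ p x a)) (s x w) := rfl

/-- The vertical part of a horizontal direction. -/
theorem Nf_hor (x : R4) (w : V k) (v : R4) :
    Nf B p s (x, w) (v, 0) = (fderiv ℝ s x v) w - (B (p x) (fderiv ℝ p x v)) (s x w) := by
  rw [Nf_apply, map_zero, add_zero]

theorem Nf_ver (x : R4) (w y : V k) : Nf B p s (x, w) (0, y) = s x y := by
  rw [Nf_apply, map_zero, map_zero, map_zero]
  simp

theorem cd_N (hB : IsBundle M k e B) (hc : IsChart M k e U p s) (hPL : IsPolar M p Reg) {x : R4}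
    (hx : x ∈ U) (w : V k) : ContDiffAt ℝ 2 (Nf B p s) (x, w) := by
  have hs := cd_s hc hx
  have h1 : ContDiffAt ℝ 2 (fun z : R4 × V k => s z.1) (x, w) :=
    ContDiffAt.comp (x, w) (hs.of_le (by norm_num)) contDiffAt_fst
  have h2 : ContDiffAt ℝ 2 (fun z : R4 × V k => fderiv ℝ s z.1) (x, w) :=
    ContDiffAt.comp (x, w) (hs.fderiv_right (m := 2) (by norm_num)) contDiffAt_fst
  have h3 : ContDiffAt ℝ 2 (fun z : R4 × V k => p z.1) (x, w) :=
    ContDiffAt.comp (x, w) (hPL.smooth.contDiffAt.of_le (by norm_num)) contDiffAt_fst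
  have h4 : ContDiffAt ℝ 2 (fun z : R4 × V k => fderiv ℝ p z.1) (x, w) :=
    ContDiffAt.comp (x, w) (hPL.smooth.contDiffAt.fderiv_right (m := 2) (by norm_num)) contDiffAt_fst
  have h5 : ContDiffAt ℝ 2 (fun z : R4 × V k => B (p z.1)) (x, w) :=
    ContDiffAt.comp (x, w) (hB.smooth_B.contDiffAt.of_le (by norm_num)) h3
  have h6 : ContDiffAt ℝ 2 (fun z : R4 × V k => z.2) (x, w) := contDiffAt_snd
  apply cda_clm
  rintro ⟨a, b⟩
  have h7 : (fun z : R4 × V k => Nf B p s z (a, b)) = fun z =>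
      (fderiv ℝ s z.1 a) z.2 + s z.1 b - (B (p z.1) (fderiv ℝ p z.1 a)) (s z.1 z.2) := rfl
  rw [h7]
  exact (((h2.clm_apply contDiffAt_const).clm_apply h6).add (h1.clm_apply contDiffAt_const)).sub
    ((h5.clm_apply (h4.clm_apply contDiffAt_const)).clm_apply (h1.clm_apply h6))

/-- The derivative of `N` in horizontal directions. -/
theorem DN (hB : IsBundle M k e B) (hc : IsChart M k e U p s) (hPL : IsPolar M p Reg) {x : R4}
    (hx : x ∈ U) (w : V k) (u v : R4) :
    (fderiv ℝ (Nf B p s) (x, w) (u, 0)) (v, 0) =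
      (fderiv ℝ (fderiv ℝ s) x u v) w -
        ((fderiv ℝ (fun y => B (p y) (fderiv ℝ p y v)) x u) (s x w) +
          (B (p x) (fderiv ℝ p x v)) ((fderiv ℝ s x u) w)) := by
  have hN : HasFDerivAt (Nf B p s) (fderiv ℝ (Nf B p s) (x, w)) (x, w) :=
    ((cd_N hB hc hPL hx w).differentiableAt (by norm_num)).hasFDerivAt
  have h1 : HasFDerivAt (fun y : R4 => (y, w)) (ContinuousLinearMap.inl ℝ R4 (V k)) x :=
    hasFDerivAt_prodMk_left x w
  have h20 := hN.clm_apply (hasFDerivAt_const ((v, 0) : R4 × V k) (x, w))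
  have h2 := h20.comp x h1
  have h3 : HasFDerivAt s (fderiv ℝ s x) x :=
    ((cd_s hc hx).differentiableAt (by norm_num)).hasFDerivAt
  have h4 : HasFDerivAt (fderiv ℝ s) (fderiv ℝ (fderiv ℝ s) x) x :=
    (((cd_s hc hx).fderiv_right (m := 2) (by norm_num)).differentiableAt (by norm_num)).hasFDerivAt
  have h5 : DifferentiableAt ℝ (fun y => B (p y) (fderiv ℝ p y v)) x := by
    have h51 : ContDiffAt ℝ 2 (fun y => B (p y)) x :=
      ContDiffAt.comp x (hB.smooth_B.contDiffAt.of_le (by norm_num))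
        (hPL.smooth.contDiffAt.of_le (by norm_num))
    have h52 : ContDiffAt ℝ 2 (fun y => fderiv ℝ p y v) x :=
      (hPL.smooth.contDiffAt.fderiv_right (m := 2) (by norm_num)).clm_apply contDiffAt_const
    exact (h51.clm_apply h52).differentiableAt (by norm_num)
  have h6 := ((h4.clm_apply (hasFDerivAt_const v x)).clm_apply (hasFDerivAt_const w x)).sub
    (h5.hasFDerivAt.clm_apply (h3.clm_apply (hasFDerivAt_const w x)))
  have h7 : ((fun z : R4 × V k => (Nf B p s z) ((v, 0) : R4 × V k)) ∘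
      fun y : R4 => (y, w)) =
      fun y => (fderiv ℝ s y v) w - (B (p y) (fderiv ℝ p y v)) (s y w) := by
    funext y
    exact Nf_hor y w v
  rw [h7] at h2
  have h8 := congrArg (fun L : R4 →L[ℝ] V n => L u) (h2.unique h6)
  simp only [add_apply, ContinuousLinearMap.comp_apply, ContinuousLinearMap.flip_apply,
    zero_apply, map_zero, zero_add, sub_apply, ContinuousLinearMap.inl_apply] at h8
  rw [h8]
  abel

/-- The derivative of `N` in horizontal directions is in the range of `e`, where `N` vanishes. -/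
theorem e_DN (hB : IsBundle M k e B) (hc : IsChart M k e U p s) (hPL : IsPolar M p Reg) {x : R4}
    (hx : x ∈ U) (w : V k) (u v : R4) (h0 : Nf B p s (x, w) (v, 0) = 0) :
    e (p x) ((fderiv ℝ (Nf B p s) (x, w) (u, 0)) (v, 0)) =
      (fderiv ℝ (Nf B p s) (x, w) (u, 0)) (v, 0) := by
  have hN : HasFDerivAt (Nf B p s) (fderiv ℝ (Nf B p s) (x, w)) (x, w) :=
    ((cd_N hB hc hPL hx w).differentiableAt (by norm_num)).hasFDerivAt
  have h1 : HasFDerivAt (fun y : R4 => (y, w)) (ContinuousLinearMap.inl ℝ R4 (V k)) x :=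
    hasFDerivAt_prodMk_left x w
  have h20 := hN.clm_apply (hasFDerivAt_const ((v, 0) : R4 × V k) (x, w))
  have h2 := h20.comp x h1
  have hp : HasFDerivAt p (fderiv ℝ p x) x :=
    (hPL.smooth.differentiable (by norm_num) x).hasFDerivAt
  have he : HasFDerivAt e (fderiv ℝ e (p x)) (p x) :=
    (hB.smooth_e.differentiable (by norm_num) (p x)).hasFDerivAt
  have h3 : HasFDerivAt (fun y => e (p y)) ((fderiv ℝ e (p x)).comp (fderiv ℝ p x)) x :=
    he.comp x hp
  have h4 := h3.clm_apply h2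
  have h5 : (fun y => e (p y) (((fun z : R4 × V k => (Nf B p s z) ((v, 0) : R4 × V k)) ∘
      fun y : R4 => (y, w)) y)) =ᶠ[nhds x]
      ((fun z : R4 × V k => (Nf B p s z) ((v, 0) : R4 × V k)) ∘ fun y : R4 => (y, w)) := by
    filter_upwards [hc.isOpen.mem_nhds hx] with y hy
    have h51 : ((fun z : R4 × V k => (Nf B p s z) ((v, 0) : R4 × V k)) ∘
        fun y : R4 => (y, w)) y =
        (fderiv ℝ s y v) w - (B (p y) (fderiv ℝ p y v)) (s y w) := Nf_hor y w v
    rw [h51]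
    exact e_N hB hc hPL hy w v
  have h6 := (h4.congr_of_eventuallyEq h5.symm).unique h2
  have h7 := congrArg (fun L : R4 →L[ℝ] V n => L u) h6
  simp only [add_apply, ContinuousLinearMap.comp_apply, ContinuousLinearMap.flip_apply,
    zero_apply, map_zero, zero_add, sub_apply, ContinuousLinearMap.inl_apply, Function.comp_apply,
    h0, add_zero] at h7
  exact h7

end

theorem cd_gB {WW : Type} [NormedAddCommGroup WW] [NormedSpace ℝ WW] {M : Model WW}
    {p : R4 → WW} {Reg : Set R4} {gM : WW → WW →L[ℝ] WW →L[ℝ] ℝ} (hPL : IsPolar M p Reg)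
    (hM : IsBase M gM) (x : R4) : ContDiffAt ℝ 2 (gB gM p) x := by
  have h1 : ContDiffAt ℝ 2 (fun y => gM (p y)) x :=
    ContDiffAt.comp x (hM.smooth.contDiffAt.of_le (by norm_num))
      (hPL.smooth.contDiffAt.of_le (by norm_num))
  have h2 : ∀ a : R4, ContDiffAt ℝ 2 (fun y => fderiv ℝ p y a) x := fun a =>
    (hPL.smooth.contDiffAt.fderiv_right (m := 2) (by norm_num)).clm_apply contDiffAt_const
  refine cda_clm fun a => cda_clm fun b => ?_
  exact (h1.clm_apply (h2 a)).clm_apply (h2 b)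

/-- **G-GKG** -/
theorem goalGKG (hG2 : G_G2) : G_GKG := by
  intro WW _ _ M p Reg k n e B gM γ ρ hPL hB hM hF U s hc x0 hx0 hs w hw
  have hN0 : ∀ c : R4, Nf B p s (x0, w) (c, 0) = 0 := by
    intro c
    rw [Nf_hor, hs c]
    exact sub_self _
  have hrange : ∀ u v : R4, ∃ y : V k, Nf B p s (x0, w) (0, y) =
      (fderiv ℝ (Nf B p s) (x0, w) (u, 0)) (v, 0) := by
    intro u v
    obtain ⟨y, hy⟩ := (hc.range x0 hx0 _).mp (e_DN hB hc hPL hx0 w u v (hN0 v))
    exact ⟨y, by rw [Nf_ver, hy]⟩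
  have hFF : (fderiv ℝ (Nf B p s) (x0, w) ((1, 0, 0, 0), 0)) ((0, 1, 0, 0), 0) -
      (fderiv ℝ (Nf B p s) (x0, w) ((0, 1, 0, 0), 0)) ((1, 0, 0, 0), 0) =
      -(FG B p x0 (s x0 w)) := by
    rw [DN hB hc hPL hx0, DN hB hc hPL hx0]
    have hsym : fderiv ℝ (fderiv ℝ s) x0 (1, 0, 0, 0) (0, 1, 0, 0) =
        fderiv ℝ (fderiv ℝ s) x0 (0, 1, 0, 0) (1, 0, 0, 0) := by
      have h1 := (cd_s hc hx0).isSymmSndFDerivAt (by
        rw [minSmoothness_of_isRCLikeNormedField]
        norm_num)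
      exact h1.eq _ _
    rw [hsym, hs, hs]
    unfold FG cG bG
    simp only [sub_apply, ContinuousLinearMap.comp_apply, mul_apply_eq_comp]
    abel
  constructor
  · have h1 : FG B p x0 (s x0 w) = -((fderiv ℝ (Nf B p s) (x0, w) ((1, 0, 0, 0), 0))
        ((0, 1, 0, 0), 0) -
        (fderiv ℝ (Nf B p s) (x0, w) ((0, 1, 0, 0), 0)) ((1, 0, 0, 0), 0)) := by
      rw [hFF, neg_neg]
    rw [h1, map_neg, map_sub, e_DN hB hc hPL hx0 w _ _ (hN0 _),
      e_DN hB hc hPL hx0 w _ _ (hN0 _)]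
  · intro K hK
    have hh : ContDiffAt ℝ 2 (gB gM p) x0 := cd_gB hPL hM x0
    have hγ : ContDiffAt ℝ 2 (fun z : R4 × V k => γ (p z.1, s z.1 z.2)) (x0, w) := by
      have h1 : ContDiffAt ℝ 2 (fun z : R4 × V k => s z.1) (x0, w) :=
        ContDiffAt.comp (x0, w) ((cd_s hc hx0).of_le (by norm_num)) contDiffAt_fst
      have h3 : ContDiffAt ℝ 2 (fun z : R4 × V k => p z.1) (x0, w) :=
        ContDiffAt.comp (x0, w) (hPL.smooth.contDiffAt.of_le (by norm_num)) contDiffAt_fst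
      have h6 : ContDiffAt ℝ 2 (fun z : R4 × V k => z.2) (x0, w) := contDiffAt_snd
      exact ContDiffAt.comp (x0, w) (hF.smooth.contDiffAt.of_le (by norm_num))
        (h3.prodMk (h1.clm_apply h6))
    have hsymm : ∀ u v : V k, (fun z : R4 × V k => γ (p z.1, s z.1 z.2)) (x0, w)
        (Nf B p s (x0, w) (0, u)) (Nf B p s (x0, w) (0, v)) =
        (fun z : R4 × V k => γ (p z.1, s z.1 z.2)) (x0, w)
        (Nf B p s (x0, w) (0, v)) (Nf B p s (x0, w) (0, u)) := by
      intro u v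
      rw [Nf_ver, Nf_ver]
      exact hF.symm (p x0) (hPL.mem x0) (s x0 w) (e_s hc hx0 w) hw _ _ (e_s hc hx0 u)
        (e_s hc hx0 v)
    have h := hG2 R4 (V k) (V n) (gB gM p) (fun z : R4 × V k => γ (p z.1, s z.1 z.2))
      (Nf B p s) x0 w (1, 0, 0, 0) (0, 1, 0, 0) K hh hγ (cd_N hB hc hPL hx0 w) hN0 hrange
      hsymm hK
    rw [hFF] at h
    simp only [map_neg, neg_apply, neg_neg] at h
    exact h

end Pool.Agent.Helper49.QT
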